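import Pool.Agent.Y58.HT.Stm

/-!
# Infinite locally finite subgroups of `PGL(2,K)` have no faithful `4`-transitive action
(after Pool.Agent.H361R3.PGL.NoFour)
-/

universe u v

namespace Pool.Agent.Y348.HT

open Matrix Equiv H361P Pool.Agent.Y58.HT
open scoped MatrixGroups

variable {F : Type u} [Field F] {G : Subgroup (PGL(2, F))}

/-- Sharpness: elements fixing four points are trivial. -/
theorem sharp (hF : LocFinite G) {Ω : Type v} [MulAction G Ω]
    (h4 : KTransitive G Ω 4) (a : Fin 4 → Ω) (ha : Function.Injective a)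
    (l : G) (hl : ∀ i, l • a i = a i) : l = 1 := by
  classical
  have hg : ∀ σ : Perm (Fin 4), ∃ g : G, ∀ i, g • a i = a (σ i) := fun σ =>
    h4.2 a (fun i => a (σ i)) ha (ha.comp σ.injective)
  choose g hg using hg
  let S : Set G := insert l (Set.range g)
  have hSfin : S.Finite := (Set.finite_range g).insert l
  have hfin := hF S hSfin
  let H := Subgroup.closure S
  have hperm : ∀ h : H, ∃ σ : Perm (Fin 4), ∀ i, (h : G) • a i = a (σ i) := by
    rintro ⟨h, hh⟩
    show ∃ σ : Perm (Fin 4), ∀ i, h • a i = a (σ i)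
    induction hh using Subgroup.closure_induction with
    | mem x hx =>
      rcases hx with rfl | ⟨σ, rfl⟩
      · exact ⟨1, fun i => hl i⟩
      · exact ⟨σ, hg σ⟩
    | one => exact ⟨1, fun i => one_smul _ _⟩
    | mul x y _ _ hx hy =>
      obtain ⟨σ, hσ⟩ := hx
      obtain ⟨τ, hτ⟩ := hy
      exact ⟨σ * τ, fun i => by rw [mul_smul, hτ, hσ]; rfl⟩
    | inv x _ hx =>
      obtain ⟨σ, hσ⟩ := hx
      refine ⟨σ⁻¹, fun i => ?_⟩
      rw [inv_smul_eq_iff, hσ]
      congr 1
      show i = (σ * σ⁻¹) i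
      rw [mul_inv_cancel]; rfl
  choose s hs using hperm
  let f : H →* Perm (Fin 4) := MonoidHom.mk' s (by
    intro x y
    ext i
    congr 1
    apply ha
    rw [← hs]
    show ((x : G) * y) • a i = a (s x (s y i))
    rw [mul_smul, hs, hs])
  have hgH : ∀ σ, g σ ∈ H := fun σ => Subgroup.subset_closure (Or.inr ⟨σ, rfl⟩)
  have hlH : l ∈ H := Subgroup.subset_closure (Or.inl rfl)
  have hf : Function.Surjective f := by
    intro σ
    refine ⟨⟨g σ, hgH σ⟩, ?_⟩
    ext i
    congr 1
    apply ha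
    show a (s ⟨g σ, hgH σ⟩ i) = a (σ i)
    rw [← hs]
    exact hg σ i
  have hinj := inj_of_surj (G.subtype.comp H.subtype)
    ((Subgroup.subtype_injective G).comp (Subgroup.subtype_injective H)) f hf
  have h1 : f ⟨l, hlH⟩ = 1 := by
    ext i
    congr 1
    apply ha
    show a (s ⟨l, hlH⟩ i) = a i
    rw [← hs]
    exact hl i
  have h2 : (⟨l, hlH⟩ : H) = 1 := hinj (by rw [h1, map_one])
  exact congrArg Subtype.val h2

/-- Elements with infinitely many fixed points are trivial. -/
lemma sharp_inf (hF : LocFinite G) {Ω : Type v} [MulAction G Ω]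
    (h4 : KTransitive G Ω 4) (R : Set Ω) (hR : R.Infinite) (l : G)
    (hl : ∀ x ∈ R, l • x = x) : l = 1 := by
  let e := hR.natEmbedding
  apply sharp hF h4 (fun i : Fin 4 => (e i : Ω))
  · intro i j hij
    exact Fin.ext (e.injective (Subtype.ext hij))
  · intro i
    exact hl _ (e i).2

/-- `PGL(2,F)` has no faithful `4`-transitive action if `F` is infinite and algebraic over a
finite field. -/
theorem no_four (hF : LocFinite G) [Infinite G] {Ω : Type v}
    [MulAction G Ω] [FaithfulSMul G Ω]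
    (h4 : KTransitive G Ω 4) : False := by
  classical
  have hinfΩ : Infinite Ω := by
    by_contra hfin
    rw [not_infinite_iff_finite] at hfin
    have : Finite G :=
      Finite.of_injective (MulAction.toPermHom G Ω) MulAction.toPerm_injective
    exact not_finite G
  obtain ⟨a, ha⟩ := h4.1
  obtain ⟨t, ht⟩ := h4.2 a (fun i => a ((swap 0 1 * swap 2 3 : Perm (Fin 4)) i)) ha
    (ha.comp (Equiv.injective _))
  have ht0 : t • a 0 = a 1 := by rw [ht]; congr 1
  have ht1 : t • a 1 = a 0 := by rw [ht]; congr 1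
  have ht2 : t • a 2 = a 3 := by rw [ht]; congr 1
  have ht3 : t • a 3 = a 2 := by rw [ht]; congr 1
  have htt : t * t = 1 := by
    apply sharp hF h4 a ha
    intro i
    rw [mul_smul]
    fin_cases i
    · show t • t • a 0 = a 0; rw [ht0, ht1]
    · show t • t • a 1 = a 1; rw [ht1, ht0]
    · show t • t • a 2 = a 2; rw [ht2, ht3]
    · show t • t • a 3 = a 3; rw [ht3, ht2]
  have htt' : ∀ x : Ω, t • t • x = x := fun x => by rw [← mul_smul, htt, one_smul]
  have ht_ne : t ≠ 1 := by
    intro h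
    rw [h, one_smul] at ht0
    have := ha ht0
    exact absurd this (by decide)
  have htinv : t⁻¹ = t := inv_eq_of_mul_eq_one_right htt
  obtain ⟨M, hM⟩ := ProjGenLinGroup.mk_surjective (t : PGL(2, F))
  have nsM : NS M.val := ns_of_mk_ne M (by
    rw [hM]
    exact fun h => ht_ne (Subtype.ext h))
  -- transitivity of the centralizer on pairs
  have trans : ∀ b b' c c' : Ω, t • b ≠ b → b' ≠ b → b' ≠ t • b → t • b' ≠ b' →
      t • c ≠ c → c' ≠ c → c' ≠ t • c → t • c' ≠ c' →
      ∃ g : G, g * t = t * g ∧ g • b = c ∧ g • b' = c' := by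
    have inj4 : ∀ b b' : Ω, t • b ≠ b → b' ≠ b → b' ≠ t • b → t • b' ≠ b' →
        Function.Injective ![b, t • b, b', t • b'] := by
      intro b b' h1 h2 h3 h4'
      have h5 : t • b' ≠ b := by
        intro h; apply h3; rw [← h, htt']
      have h6 : t • b' ≠ t • b := by
        intro h; apply h2; exact smul_left_cancel t h
      intro i j hij
      fin_cases i <;> fin_cases j <;> simp at hij ⊢
      · exact h1 hij.symm
      · exact h2 hij.symm
      · exact h5 hij.symm
      · exact h1 hij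
      · exact h3 hij.symm
      · exact h2 hij.symm
      · exact h2 hij
      · exact h3 hij
      · exact h4' hij.symm
      · exact h5 hij
      · exact h2 hij
      · exact h4' hij
    intro b b' c c' h1 h2 h3 h4' k1 k2 k3 k4
    obtain ⟨g, hg⟩ := h4.2 _ _ (inj4 b b' h1 h2 h3 h4') (inj4 c c' k1 k2 k3 k4)
    have g0 : g • b = c := by simpa using hg 0
    have g1 : g • t • b = t • c := by simpa using hg 1
    have g2 : g • b' = c' := by simpa using hg 2
    have g3 : g • t • b' = t • c' := by simpa using hg 3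
    refine ⟨g, ?_, g0, g2⟩
    have hone : g * t * g⁻¹ * t = 1 := by
      apply sharp hF h4 _ (inj4 c c' k1 k2 k3 k4)
      have i0 : g⁻¹ • c = b := by rw [inv_smul_eq_iff, g0]
      have i1 : g⁻¹ • t • c = t • b := by rw [inv_smul_eq_iff, g1]
      have i2 : g⁻¹ • c' = b' := by rw [inv_smul_eq_iff, g2]
      have i3 : g⁻¹ • t • c' = t • b' := by rw [inv_smul_eq_iff, g3]
      intro i
      rw [mul_smul, mul_smul, mul_smul]
      fin_cases i
      · show g • t • g⁻¹ • t • c = c
        rw [i1, htt', g0]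
      · show g • t • g⁻¹ • t • t • c = t • c
        rw [htt', i0, g1]
      · show g • t • g⁻¹ • t • c' = c'
        rw [i3, htt', g2]
      · show g • t • g⁻¹ • t • t • c' = t • c'
        rw [htt', i2, g3]
    have h5 : g * t * g⁻¹ = t := by
      have := eq_inv_of_mul_eq_one_left hone
      rw [this, htinv]
    exact mul_inv_eq_iff_eq_mul.1 h5
  -- the moved points
  have hfix : {x : Ω | t • x = x}.Finite := by
    by_contra hinf
    exact ht_ne (sharp_inf hF h4 _ hinf t (fun x hx => hx))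
  have hmov : {x : Ω | t • x ≠ x}.Infinite := by
    have h1 := hfix.infinite_compl
    exact h1
  have hmov' : ∀ b : Ω, ({x : Ω | t • x ≠ x} \ {b, t • b}).Infinite := fun b =>
    hmov.diff (Set.toFinite _)
  obtain ⟨b, hb⟩ := hmov.nonempty
  have hb : t • b ≠ b := hb
  -- choose for each c in the moved set an element
  have hS := hmov' b
  obtain ⟨b', hb'⟩ := hS.nonempty
  have hb'1 : t • b' ≠ b' := hb'.1
  have hb'2 : b' ≠ b := fun h => hb'.2 (Or.inl h)
  have hb'3 : b' ≠ t • b := fun h => hb'.2 (Or.inr h)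
  -- two elements with the same type
  have pig : ∀ (R : Set Ω), R.Infinite → ∀ P : Ω → Prop, ∃ R' ⊆ R, R'.Infinite ∧
      ∀ x ∈ R', ∀ y ∈ R', (P x ↔ P y) := by
    intro R hR P
    by_cases h : (R ∩ {x | P x}).Infinite
    · exact ⟨_, Set.inter_subset_left, h, fun x hx y hy => ⟨fun _ => hy.2, fun _ => hx.2⟩⟩
    · have h2 : (R \ {x | P x}).Infinite := by
        rw [Set.not_infinite] at h
        have := hR.diff h
        refine this.mono ?_
        intro x hx
        exact ⟨hx.1, fun hp => hx.2 ⟨hx.1, hp⟩⟩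
      exact ⟨_, Set.sdiff_subset, h2, fun x hx y hy => ⟨fun hp => absurd hp hx.2,
        fun hp => absurd hp hy.2⟩⟩
  -- first: a nontrivial element of TT fixing b
  have hg1 : ∀ c' ∈ ({x : Ω | t • x ≠ x} \ {b, t • b}), ∃ g : G,
      g * t = t * g ∧ g • b = b ∧ g • b' = c' := by
    intro c' hc'
    exact trans b b' b c' hb hb'2 hb'3 hb'1 hb (fun h => hc'.2 (Or.inl h))
      (fun h => hc'.2 (Or.inr h)) hc'.1
  choose! g hgc hgb hgb' using hg1
  obtain ⟨R, hRS, hRinf, hRP⟩ := pig _ hS (fun c => TT M (g c : PGL(2, F)))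
  obtain ⟨c1, hc1⟩ := hRinf.nonempty
  obtain ⟨c2, hc2⟩ := (hRinf.diff (Set.finite_singleton c1)).nonempty
  have hc12 : c2 ≠ c1 := fun h => hc2.2 h
  set h := (g c1)⁻¹ * g c2 with hh
  have hTTh : TT M (h : PGL(2, F)) := TT_same
    (by rw [hM]; exact congrArg Subtype.val (hgc c1 (hRS hc1)))
    (by rw [hM]; exact congrArg Subtype.val (hgc c2 (hRS hc2.1))) (hRP c1 hc1 c2 hc2.1)
  have hhb : h • b = b := by
    rw [hh, mul_smul, hgb c2 (hRS hc2.1), inv_smul_eq_iff, hgb c1 (hRS hc1)]
  have hh1 : h ≠ 1 := by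
    intro h1
    apply hc12
    rw [← hgb' c1 (hRS hc1), ← hgb' c2 (hRS hc2.1)]
    rw [hh, inv_mul_eq_one] at h1
    rw [h1]
  -- second: infinitely many points fixed by h
  have hg2 : ∀ c ∈ {x : Ω | t • x ≠ x}, ∃ k : G, k * t = t * k ∧ k • b = c := by
    intro c hc
    obtain ⟨c', hc'⟩ := (hmov' c).nonempty
    obtain ⟨k, hk1, hk2, _⟩ := trans b b' c c' hb hb'2 hb'3 hb'1 hc
      (fun h => hc'.2 (Or.inl h)) (fun h => hc'.2 (Or.inr h)) hc'.1
    exact ⟨k, hk1, hk2⟩
  choose! k hkc hkb using hg2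
  obtain ⟨R2, hR2S, hR2inf, hR2P⟩ := pig _ hmov (fun c => TT M (k c : PGL(2, F)))
  obtain ⟨c0, hc0⟩ := hR2inf.nonempty
  apply hh1
  apply sharp_inf hF h4 ((fun x => (k c0)⁻¹ • x) '' R2)
    (hR2inf.image (fun x _ y _ hxy => smul_left_cancel _ hxy))
  rintro _ ⟨c, hc, rfl⟩
  show h • (k c0)⁻¹ • c = (k c0)⁻¹ • c
  have h1 : TT M (((k c0)⁻¹ * k c : G) : PGL(2, F)) := TT_same
    (by rw [hM]; exact congrArg Subtype.val (hkc c0 (hR2S hc0)))
    (by rw [hM]; exact congrArg Subtype.val (hkc c (hR2S hc))) (hR2P c0 hc0 c hc)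
  have h3 : h * ((k c0)⁻¹ * k c) = ((k c0)⁻¹ * k c) * h := Subtype.ext (TT_comm nsM hTTh h1)
  have h2 : (k c0)⁻¹ • c = ((k c0)⁻¹ * k c) • b := by
    rw [mul_smul, hkb c (hR2S hc)]
  rw [h2, ← mul_smul, h3, mul_smul, hhb]

theorem t_nf4 : S_NF4.{u} := by
  intro K _ G _ hG hT
  obtain ⟨Ω, _, hfaith, h4⟩ := hT
  exact no_four hG h4

end Pool.Agent.Y348.HT
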